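import Pool.Agent.Helper5.KBnG.Upper
import Pool.Agent.Helper5.KBnG.Lower

/-!
The percolation threshold `k_c(d)` of the bidirectional `k`-neighbour graph on `ℤ^d` satisfies
`k_c(d) / √(2d) → 1` as `d → ∞`.
-/

open Filter

namespace Pool.Agent.Results.MP_8219fb_pr.CriticalAsymptotics

open KBnG

theorem kc_bounds (δ : ℝ) (hδ : 0 < δ) : ∀ᶠ d : ℕ in atTop,
    √(2 * (d : ℝ)) ≤ kc d ∧ (kc d : ℝ) ≤ (1 + δ) * √(2 * d) + 1 := by
  obtain ⟨D, hD⟩ := exists_nat_ge ((1 + δ) ^ 2)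
  filter_upwards [upper δ hδ, eventually_ge_atTop (D + 2)] with d hd hdD
  have hd0 : (2:ℝ) ≤ d := by exact_mod_cast (show 2 ≤ d by omega)
  have hdD' : (1 + δ) ^ 2 ≤ (d:ℝ) := by
    have : (D:ℝ) ≤ d := by exact_mod_cast (show D ≤ d by omega)
    linarith
  set x : ℝ := (1 + δ) * √(2 * (d:ℝ)) with hx
  have hx0 : 0 < x := by
    have : 0 < √(2 * (d:ℝ)) := Real.sqrt_pos.2 (by linarith)
    positivity
  have hx1 : x ≤ (2 * d : ℕ) := by
    apply abs_le_of_sq_le_sq' _ (by positivity) |>.2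
    rw [hx, mul_pow, Real.sq_sqrt (by positivity)]
    push_cast
    nlinarith
  set k : ℕ := ⌈x⌉₊ with hk
  have hk2 : k ≤ 2 * d := Nat.ceil_le.2 hx1
  have hk1 : 1 ≤ k := Nat.ceil_pos.2 hx0
  have hmem : k ∈ {k : ℕ | 1 ≤ k ∧ ∃ h : k ≤ 2 * d, 0 < theta d k h} :=
    ⟨hk1, hk2, hd k hk2 (Nat.le_ceil x)⟩
  constructor
  · obtain ⟨-, hkc, hpos⟩ : kc d ∈ {k : ℕ | 1 ≤ k ∧ ∃ h : k ≤ 2 * d, 0 < theta d k h} :=
      Nat.sInf_mem ⟨k, hmem⟩
    have h1 : 2 * d ≤ kc d * (kc d - 1) := by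
      by_contra hlt
      push Not at hlt
      rw [theta_eq_zero d (kc d) hkc hlt] at hpos
      exact lt_irrefl _ hpos
    have h2 : 2 * d ≤ kc d * kc d := h1.trans (Nat.mul_le_mul_left _ (Nat.sub_le _ _))
    rw [Real.sqrt_le_left (by positivity), sq]
    exact_mod_cast h2
  · have h1 : kc d ≤ k := Nat.sInf_le hmem
    have h2 : (kc d : ℝ) ≤ k := by exact_mod_cast h1
    have h3 := Nat.ceil_lt_add_one hx0.le
    linarith

/-- The percolation threshold of the bidirectional `k`-neighbour graph on `ℤ^d` is asymptotic to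
`√(2d)`. -/
theorem result : Tendsto (fun d : ℕ => (kc d : ℝ) / √(2 * (d : ℝ))) atTop (nhds 1) := by
  rw [Metric.tendsto_atTop']
  intro ε hε
  obtain ⟨D, hD⟩ := exists_nat_gt ((2 / ε) ^ 2)
  have hev := (kc_bounds (ε / 4) (by positivity)).and (eventually_ge_atTop (D + 1))
  obtain ⟨N, hN⟩ := eventually_atTop.1 hev
  refine ⟨N, fun d hd => ?_⟩
  obtain ⟨⟨h1, h2⟩, h3⟩ := hN d hd.le
  have hdD : (D:ℝ) + 1 ≤ d := by exact_mod_cast h3
  have hd0 : (0:ℝ) < d := by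
    have : (0:ℝ) ≤ D := by positivity
    linarith
  have hs : 0 < √(2 * (d:ℝ)) := Real.sqrt_pos.2 (by linarith)
  have hbig : 2 / ε < √(2 * (d:ℝ)) := by
    apply Real.lt_sqrt_of_sq_lt
    linarith
  have h4 : 1 ≤ (kc d : ℝ) / √(2 * (d : ℝ)) := by rw [le_div_iff₀ hs]; linarith
  have h5 : (kc d : ℝ) / √(2 * (d : ℝ)) < 1 + ε := by
    rw [div_lt_iff₀ hs]
    rw [div_lt_iff₀ hε] at hbig
    nlinarith
  rw [Real.dist_eq, abs_of_nonneg (by linarith)]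
  linarith

end Pool.Agent.Results.MP_8219fb_pr.CriticalAsymptotics
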